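import Pool.Agent.H32.KN.N4
import Pool.Agent.H20.RT.Bgd

/-!
# [H32 KN N2] K3 fibrations (MP_e49dc9_ag, think 1265 (2)): the classes `D` of the tangent cone of `F` with `T(F,D,D) = 0 < T(F,D,A)`, rational modulo the kernel

`n2`: `F` integral and nef, `F . F = 0`, `l(F) > 0`, (MI), `D` in the tangent cone of `F`, `T(F,D,D) = 0 < T(F,D,A)`, `T(F,D,.) = s T(F,W,.)` with `W` integral:
then `D + K F` is nef for some `K`.

PROOF.  `D = ∑ b_i W_i`, `b_i ≥ 0`, `W_i` integral, `T(F,W_i,W_i) = 0 < T(F,W_i,A)` (`n2`: `D - s W` is in the kernel of `T(F,.,.)`, which is rational).  `n2_core`: by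
(GLB) `W_i ^ j F ^ (t_i)` has a section; `U = ∏ (W_i ^ j) ^ ⌊n b_i⌋ A ^ N` is `n j D` plus an ample class of bounded size, so (MI) can be used for `U`, and
`U F ^ s` has a section, `s = ∑ t_i ⌊n b_i⌋ = O(n)`.  Divide by `n j`, `n → ∞`.
-/

set_option autoImplicit false

namespace Pool.Agent.H32.KN

open Pool.Agent.H54.RV Pool.Agent.H83.TU Pool.Agent.H83.TK Pool.Agent.H20.TD Pool.Agent.H20.TP Pool.Agent.H20.RT
open Pool.Agent.H24.VP (RR chS chi)
open Pool.Agent.H36.ZO (sec_mul1)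
open Pool.Agent.H24.RC (ball_bd)
open Pool.Agent.H41.RA (cR_pow cR_inv)

variable {k K : Type} [Field k] [Field K] [Algebra k K] {X : Mod k K} {r : ℕ}
  {ν : Cart X →* Multiplicative (Fin r → ℤ)} {T : Cart X → Cart X → Cart X → ℝ} {l : Cart X → ℝ} {c : ℝ} {TR : Tri3 r}
  {A F : Cart X}

/-- products of sections -/
theorem pos_mul' (hfd : ∀ W : Cart X, FiniteDimensional k (secL W 1)) {U V : Cart X} (hU : 0 < h0 U 1) (hV : 0 < h0 V 1) :
    0 < h0 (U * V) 1 := by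
  have := hfd (U * V)
  have hU' : Nontrivial (secL U 1) := Module.nontrivial_of_finrank_pos (R := k) hU
  have hV' : Nontrivial (secL V 1) := Module.nontrivial_of_finrank_pos (R := k) hV
  obtain ⟨⟨u, hu⟩, hu0⟩ := exists_ne (0 : secL U 1)
  obtain ⟨⟨v, hv⟩, hv0⟩ := exists_ne (0 : secL V 1)
  have h1 := sec_mul1 hu hv
  have h2 : Nontrivial (secL (U * V) 1) :=
    nontrivial_of_ne (⟨u * v, h1⟩ : secL (U * V) 1) 0 (fun h4 => by
      have h5 : u * v = 0 := congrArg Subtype.val h4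
      rcases mul_eq_zero.1 h5 with h6 | h6
      · exact hu0 (Subtype.ext h6)
      · exact hv0 (Subtype.ext h6))
  exact Module.finrank_pos

theorem pos_one (hfd : ∀ W : Cart X, FiniteDimensional k (secL W 1)) : 0 < h0 (1 : Cart X) 1 := by
  have := hfd 1
  have h1 : (1 : K) ∈ secL (1 : Cart X) 1 := fun x => by
    have e : (1 : Cart X).eq x = 1 := rfl
    rw [e, one_pow, mul_one]
    exact (X.O x).one_mem
  have h2 : Nontrivial (secL (1 : Cart X) 1) :=
    nontrivial_of_ne (⟨1, h1⟩ : secL (1 : Cart X) 1) 0 (fun h4 => one_ne_zero (congrArg Subtype.val h4))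
  exact Module.finrank_pos

theorem pos_pow (hfd : ∀ W : Cart X, FiniteDimensional k (secL W 1)) {U : Cart X} (hU : 0 < h0 U 1) (n : ℕ) :
    0 < h0 (U ^ n) 1 := by
  induction n with
  | zero =>
    rw [pow_zero]
    exact pos_one hfd
  | succ n ih =>
    rw [pow_succ]
    exact pos_mul' hfd ih hU

theorem pos_prod (hfd : ∀ W : Cart X, FiniteDimensional k (secL W 1)) {ι : Type} (s : Finset ι) {U : ι → Cart X}
    (hU : ∀ i, 0 < h0 (U i) 1) : 0 < h0 (∏ i ∈ s, U i) 1 := by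
  classical
  induction s using Finset.induction_on with
  | empty =>
    rw [Finset.prod_empty]
    exact pos_one hfd
  | insert a s ha ih =>
    rw [Finset.prod_insert ha]
    exact pos_mul' hfd (hU a) ih

theorem cR_prod {ι : Type} (s : Finset ι) (U : ι → Cart X) : cR ν (∏ i ∈ s, U i) = ∑ i ∈ s, cR ν (U i) := by
  classical
  induction s using Finset.induction_on with
  | empty => rw [Finset.prod_empty, Finset.sum_empty, cR_one]
  | insert a s ha ih => rw [Finset.prod_insert ha, Finset.sum_insert ha, cR_mul, ih]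

/-- sums of classes with sections -/
theorem n2_core [CharZero k] [IsAlgClosed k] [T0Space X.P] (h : Hyp X) (hr : RR T l c) (hν : NumR ν)
    (hT : ∀ U V W, TR (cR ν U) (cR ν V) (cR ν W) = T U V W) (hA : Ample A)
    (hF : cR ν F ∈ closure (CC ν)) (hsq : TR (cR ν F) (cR ν F) = 0) (hpos : 0 < TR (cR ν F) (cR ν A) (cR ν A))
    (hl : 0 < l F)
    (hMI : ∃ M : ℝ, 0 ≤ M ∧ ∀ U : Cart X, (∃ t0 : ℝ, cR ν U + t0 • cR ν F ∈ closure (CC ν)) → ∀ s : ℤ,
      0 < h0 (U * F ^ s) 1 → cR ν U + ((s : ℝ) + M * T A U F) • cR ν F ∈ closure (CC ν))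
    {D : Fin r → ℝ} (hD : ∀ e : ℝ, 0 < e → ∃ t : ℝ, D + e • cR ν A + t • cR ν F ∈ closure (CC ν))
    {ι : Type} [Fintype ι] {W : ι → Cart X} {b : ι → ℝ} (hb : ∀ i, 0 ≤ b i) (hW1 : ∀ i, 0 < T F (W i) A)
    (hW2 : ∀ i, 0 ≤ T F (W i) (W i)) (hDW : D = ∑ i, b i • cR ν (W i)) : ∃ t : ℝ, D + t • cR ν F ∈ closure (CC ν) := by
  classical
  obtain ⟨M, hM, hMI⟩ := hMI
  have s12 := tr_s12 hr hν hT
  have s23 := tr_s23 hr hν hT
  have hoc := oc_cc (ν := ν) h.var hν
  have hAC : cR ν A ∈ CC ν := cc_amp h.var hν hA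
  have hfd : ∀ W : Cart X, FiniteDimensional k (secL W 1) := Pool.Agent.H24.TK.fd h.var h.gen hA
  have hFam : ∀ B : Cart X, Ample B → Ample (B * F) := fun B hB => by
    apply cc_ample (ν := ν)
    change cR ν (B * F) ∈ CC ν
    rw [cR_mul]
    exact hoc.add_cl (cc_amp h.var hν hB) hF
  have hFF : ∀ U, T F F U = 0 := fun U => by rw [← hT, hsq, LinearMap.zero_apply]
  have hFA : 0 < T F A A := by rw [← hT]; exact hpos
  -- sections of `W i ^ j F ^ (t i)`
  choose j₀ hj₀ using fun i => Pool.Agent.H24.RG.glb' h hr hA hFam hFF hFA (hW1 i)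
  obtain ⟨j, hj⟩ : ∃ j : ℕ, j = ∑ i, j₀ i + 1 := ⟨_, rfl⟩
  have hj1 : 1 ≤ j := by omega
  have hjp : (0 : ℝ) < j := by exact_mod_cast hj1
  have hji : ∀ i, j₀ i ≤ j := fun i => by
    have := Finset.single_le_sum (f := j₀) (fun i _ => Nat.zero_le _) (Finset.mem_univ i)
    omega
  have hsec : ∀ i, ∃ t : ℕ, 0 < h0 (W i ^ j * F ^ t) 1 := fun i => by
    obtain ⟨C, n₀, h1⟩ := hj₀ i j (hji i)
    obtain ⟨n, hn⟩ := exists_nat_gt (C / l F)
    rw [div_lt_iff₀ hl] at hn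
    refine ⟨n₀ + n, ?_⟩
    have h2 := h1 (n₀ + n) (by omega)
    have h3 : (0 : ℝ) ≤ (j : ℝ) ^ 2 * T F (W i) (W i) / 2 := by
      have := hW2 i
      positivity
    have h4 : (0 : ℝ) < h0 (W i ^ j * F ^ (n₀ + n)) 1 := by
      refine lt_of_lt_of_le ?_ h2
      have h5 : (n : ℝ) * l F ≤ ((n₀ + n : ℕ) : ℝ) * ((j : ℝ) ^ 2 * T F (W i) (W i) / 2 + l F) := by
        refine mul_le_mul ?_ ?_ hl.le (Nat.cast_nonneg _)
        · push_cast
          linarith [Nat.cast_nonneg (α := ℝ) n₀]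
        · linarith
      linarith
    exact_mod_cast h4
  choose t ht using hsec
  -- sections of `A ^ m`
  obtain ⟨m, hm, -, hbp⟩ := exists_bpf h.var hA
  have hmA : 0 < h0 (A ^ m) 1 := Pool.Agent.H20.TQ.bpf_pos h hbp
  have hm1 : (1 : ℝ) ≤ m := by exact_mod_cast hm
  -- `N`
  obtain ⟨δ, hδ, hball⟩ := Metric.isOpen_iff.1 (cc_open (ν := ν)) (cR ν A) hAC
  obtain ⟨R, hR⟩ : ∃ R : ℝ, R = j * ∑ i, ‖cR ν (W i)‖ := ⟨_, rfl⟩
  have hR0 : 0 ≤ R := by rw [hR]; exact mul_nonneg hjp.le (Finset.sum_nonneg fun i _ => norm_nonneg _)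
  obtain ⟨N, hN⟩ := exists_nat_gt (R / δ + 1)
  have hN' : R < ((N : ℝ) - 1) * δ := by
    have h1 : R / δ < N - 1 := by linarith
    rwa [div_lt_iff₀ hδ] at h1
  have hN1 : (1 : ℝ) < N := by
    have : 0 ≤ R / δ := by positivity
    linarith
  have hNN : (N : ℝ) ≤ m * N := by nlinarith
  obtain ⟨B₁, hB₁, b1⟩ := ball_bd (f := fun u => TR (cR ν A) u (cR ν F))
    (cont3' TR continuous_const continuous_id continuous_const) R
  obtain ⟨κ, hκ⟩ : ∃ κ : ℝ, κ = m * N * TR (cR ν A) (cR ν A) (cR ν F) + B₁ := ⟨_, rfl⟩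
  have hAAF : TR (cR ν A) (cR ν A) (cR ν F) = TR (cR ν F) (cR ν A) (cR ν A) := by rw [s23, s12]
  have hκ0 : 0 ≤ κ := by
    rw [hκ, hAAF]
    positivity
  obtain ⟨Kc, hK⟩ : ∃ Kc : ℝ, Kc = (∑ i, (t i : ℝ) * b i) / j + M * (TR (cR ν A) D (cR ν F) + κ) := ⟨_, rfl⟩
  refine ⟨Kc, ?_⟩
  -- the approximation
  have main : ∀ n : ℕ, 1 ≤ n → ∃ u : Fin r → ℝ, ‖u - D‖ ≤ (n : ℝ)⁻¹ * (m * N * ‖cR ν A‖ + R) ∧
      u + Kc • cR ν F ∈ closure (CC ν) := by
    intro n hn
    have hn1 : (1 : ℝ) ≤ n := by exact_mod_cast hn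
    have hnp : (0 : ℝ) < n := by linarith
    obtain ⟨e, he⟩ : ∃ e : ι → ℕ, ∀ i, e i = ⌊(n : ℝ) * b i⌋₊ := ⟨_, fun _ => rfl⟩
    have he1 : ∀ i, (e i : ℝ) ≤ n * b i := fun i => by
      rw [he]
      exact Nat.floor_le (mul_nonneg hnp.le (hb i))
    have he2 : ∀ i, (n : ℝ) * b i < e i + 1 := fun i => by
      rw [he]
      exact Nat.lt_floor_add_one _
    obtain ⟨w, hw⟩ : ∃ w : Fin r → ℝ, w = (j : ℝ) • ∑ i, ((n : ℝ) * b i - e i) • cR ν (W i) := ⟨_, rfl⟩
    have hwn : ‖w‖ ≤ R := by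
      rw [hw, hR, norm_smul, Real.norm_eq_abs, abs_of_pos hjp]
      refine mul_le_mul_of_nonneg_left ((norm_sum_le _ _).trans (Finset.sum_le_sum fun i _ => ?_)) hjp.le
      rw [norm_smul, Real.norm_eq_abs, abs_of_nonneg (by linarith [he1 i])]
      have h1 : (n : ℝ) * b i - e i ≤ 1 := by linarith [he2 i]
      calc _ ≤ 1 * ‖cR ν (W i)‖ := mul_le_mul_of_nonneg_right h1 (norm_nonneg _)
        _ = _ := one_mul _
    -- the class `U`
    obtain ⟨U, hU⟩ : ∃ U : Cart X, U = (∏ i, (W i ^ j) ^ e i) * (A ^ m) ^ N := ⟨_, rfl⟩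
    have hUc : cR ν U = (n * j : ℝ) • D + ((m * N : ℝ) • cR ν A - w) := by
      rw [hU, cR_mul, cR_prod, cR_pow, cR_pow, hw, hDW]
      simp only [cR_pow, smul_smul, sub_smul, Finset.sum_sub_distrib, smul_sub, Finset.smul_sum]
      have h1 : ∀ i : ι, ((e i : ℝ) * (j : ℝ)) • cR ν (W i) = ((j : ℝ) * (e i : ℝ)) • cR ν (W i) := fun i => by
        rw [mul_comm]
      have h2 : ∀ i : ι, ((n : ℝ) * (j : ℝ) * b i) • cR ν (W i) = ((j : ℝ) * ((n : ℝ) * b i)) • cR ν (W i) := fun i => by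
        congr 1
        ring
      simp only [h1, h2, mul_comm (N : ℝ)]
      abel
    have hamp : (m * N : ℝ) • cR ν A - w - cR ν A ∈ CC ν := by
      have hp1 : (0 : ℝ) < m * N - 1 := by linarith
      have h1 : cR ν A - ((m * N : ℝ) - 1)⁻¹ • w ∈ CC ν := by
        apply hball
        rw [Metric.mem_ball, dist_eq_norm, sub_sub_cancel_left, norm_neg, norm_smul, Real.norm_eq_abs,
          abs_of_pos (inv_pos.2 hp1), inv_mul_lt_iff₀ hp1]
        have : ((N : ℝ) - 1) * δ ≤ (m * N - 1) * δ := mul_le_mul_of_nonneg_right (by linarith) hδ.le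
        linarith
      have h2 := hoc.smul _ hp1 _ h1
      rw [smul_sub, smul_smul, mul_inv_cancel₀ hp1.ne', one_smul, sub_smul, one_smul] at h2
      convert h2 using 1
      abel
    obtain ⟨t', ht'⟩ := hD (1 / (n * j : ℝ)) (by positivity)
    have hnj : (0 : ℝ) < n * j := by positivity
    have h1 : ∃ t0 : ℝ, cR ν U + t0 • cR ν F ∈ closure (CC ν) := by
      refine ⟨n * j * t', ?_⟩
      have h2 : (n * j : ℝ) • (D + (1 / (n * j : ℝ)) • cR ν A + t' • cR ν F) ∈ closure (CC ν) :=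
        map_mem_closure (continuous_const_smul _) ht' fun y hy => hoc.smul _ hnj y hy
      have h3 := subset_closure (hoc.add_cl hamp h2)
      convert h3 using 1
      rw [hUc]
      simp only [smul_add, smul_smul, mul_one_div, div_self hnj.ne', one_smul]
      abel
    have h2 : 0 < h0 (U * F ^ ((∑ i, t i * e i : ℕ) : ℤ)) 1 := by
      have h3 : U * F ^ ((∑ i, t i * e i : ℕ) : ℤ) = (∏ i, (W i ^ j * F ^ t i) ^ e i) * (A ^ m) ^ N := by
        rw [hU, zpow_natCast, ← Finset.prod_pow_eq_pow_sum]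
        simp only [mul_pow, Finset.prod_mul_distrib, ← pow_mul]
        ac_rfl
      rw [h3]
      exact pos_mul' hfd (pos_prod hfd _ fun i => pos_pow hfd (ht i) _) (pos_pow hfd hmA _)
    have h3 := hMI U h1 _ h2
    -- the numbers
    have h4 : T A U F = n * j * TR (cR ν A) D (cR ν F) + (m * N * TR (cR ν A) (cR ν A) (cR ν F) - TR (cR ν A) w (cR ν F)) := by
      rw [← hT, hUc]
      simp only [map_add, map_sub, map_smul, LinearMap.add_apply, LinearMap.sub_apply, LinearMap.smul_apply, smul_eq_mul]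
    have h5 : T A U F ≤ n * j * (TR (cR ν A) D (cR ν F) + κ) := by
      have h6 := (abs_le.1 (b1 w hwn)).1
      have h7 : (1 : ℝ) ≤ n * j := by
        have : (1 : ℝ) ≤ j := by exact_mod_cast hj1
        nlinarith
      have h8 : κ ≤ n * j * κ := by nlinarith
      rw [h4]
      rw [hκ] at h8 ⊢
      linarith
    have h6 : ((∑ i, t i * e i : ℕ) : ℝ) ≤ n * j * ((∑ i, (t i : ℝ) * b i) / j) := by
      have h7 : (n * j : ℝ) * ((∑ i, (t i : ℝ) * b i) / j) = ∑ i, (t i : ℝ) * (n * b i) := by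
        rw [mul_assoc, mul_div_cancel₀ _ hjp.ne', Finset.mul_sum]
        refine Finset.sum_congr rfl fun i _ => ?_
        ring
      rw [h7]
      push_cast
      exact Finset.sum_le_sum fun i _ => mul_le_mul_of_nonneg_left (he1 i) (Nat.cast_nonneg _)
    have h7 : (((∑ i, t i * e i : ℕ) : ℤ) : ℝ) + M * T A U F ≤ n * j * Kc := by
      have h8 := mul_le_mul_of_nonneg_left h5 hM
      rw [hK, Int.cast_natCast]
      linarith
    have h8 : cR ν U + (n * j * Kc : ℝ) • cR ν F ∈ closure (CC ν) := by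
      have hz : (0 : Fin r → ℝ) ∈ closure (CC ν) := by
        have h5 : Filter.Tendsto (fun n : ℕ => ((n : ℝ) + 1)⁻¹ • cR ν A) Filter.atTop (nhds ((0 : ℝ) • cR ν A)) :=
          (tendsto_inv_atTop_zero.comp (Filter.tendsto_atTop_add_const_right _ _ tendsto_natCast_atTop_atTop)).smul_const _
        rw [zero_smul] at h5
        exact mem_closure_of_tendsto h5 (Filter.Eventually.of_forall fun n => hoc.smul _ (by positivity) _ hAC)
      have h9 : (n * j * Kc - ((((∑ i, t i * e i : ℕ) : ℤ) : ℝ) + M * T A U F)) • cR ν F ∈ closure (CC ν) := by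
        rcases (sub_nonneg.2 h7).eq_or_lt with h10 | h10
        · rw [← h10, zero_smul]
          exact hz
        · exact map_mem_closure (continuous_const_smul _) hF fun y hy => hoc.smul _ h10 y hy
      have h10 : _ ∈ closure (CC ν) := map_mem_closure₂ continuous_add h3 h9 fun y hy z hz => hoc.add y hy z hz
      convert h10 using 1
      rw [add_assoc, ← add_smul]
      congr 2
      ring
    refine ⟨(n * j : ℝ)⁻¹ • cR ν U, ?_, ?_⟩
    · have h9 : (n * j : ℝ)⁻¹ • cR ν U - D = (n * j : ℝ)⁻¹ • ((m * N : ℝ) • cR ν A - w) := by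
        rw [hUc, smul_add, smul_smul, inv_mul_cancel₀ hnj.ne', one_smul, add_sub_cancel_left]
      rw [h9, norm_smul, Real.norm_eq_abs, abs_of_pos (inv_pos.2 hnj)]
      refine mul_le_mul ?_ ?_ (norm_nonneg _) (inv_pos.2 hnp).le
      · refine inv_anti₀ hnp ?_
        have : (1 : ℝ) ≤ j := by exact_mod_cast hj1
        nlinarith
      · refine (norm_sub_le _ _).trans (add_le_add ?_ hwn)
        rw [norm_smul, Real.norm_eq_abs, abs_of_nonneg (by positivity)]
    · have h9 := map_mem_closure (continuous_const_smul ((n * j : ℝ)⁻¹)) h8 (t := CC ν)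
        fun y hy => hoc.smul _ (inv_pos.2 hnj) y hy
      convert h9 using 1
      rw [smul_add, smul_smul, ← mul_assoc, inv_mul_cancel₀ hnj.ne', one_mul]
  -- the limit
  rw [← closure_closure, Metric.mem_closure_iff]
  intro ε hε
  obtain ⟨n, hn⟩ := exists_nat_gt ((m * N * ‖cR ν A‖ + R) / ε + 1)
  have hQ0 : (0 : ℝ) ≤ m * N * ‖cR ν A‖ + R := by positivity
  have hn1 : (1 : ℝ) < n := by
    have : 0 ≤ (m * N * ‖cR ν A‖ + R) / ε := by positivity
    linarith
  obtain ⟨u, h1, h2⟩ := main n (by exact_mod_cast hn1.le)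
  refine ⟨_, h2, ?_⟩
  rw [dist_comm, dist_eq_norm, add_sub_add_right_eq_sub]
  refine lt_of_le_of_lt h1 ?_
  rw [inv_mul_lt_iff₀ (by linarith)]
  have h3 : (m * N * ‖cR ν A‖ + R) / ε < n := by linarith
  rwa [div_lt_iff₀ hε] at h3

/-- **(N2)** -/
theorem n2 [CharZero k] [IsAlgClosed k] [T0Space X.P] (h : Hyp X) (hr : RR T l c) (hν : NumR ν)
    (hT : ∀ U V W, TR (cR ν U) (cR ν V) (cR ν W) = T U V W) (hA : Ample A)
    (hF : cR ν F ∈ closure (CC ν)) (hsq : TR (cR ν F) (cR ν F) = 0) (hpos : 0 < TR (cR ν F) (cR ν A) (cR ν A))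
    (hl : 0 < l F)
    (hMI : ∃ M : ℝ, 0 ≤ M ∧ ∀ U : Cart X, (∃ t0 : ℝ, cR ν U + t0 • cR ν F ∈ closure (CC ν)) → ∀ s : ℤ,
      0 < h0 (U * F ^ s) 1 → cR ν U + ((s : ℝ) + M * T A U F) • cR ν F ∈ closure (CC ν))
    {D : Fin r → ℝ} (hD : ∀ e : ℝ, 0 < e → ∃ t : ℝ, D + e • cR ν A + t • cR ν F ∈ closure (CC ν))
    (hda : 0 < TR (cR ν F) D (cR ν A)) (hdd : TR (cR ν F) D D = 0)
    (hW : ∃ (W : Cart X) (s : ℝ), ∀ v, TR (cR ν F) D v = s * TR (cR ν F) (cR ν W) v) :
    ∃ t : ℝ, D + t • cR ν F ∈ closure (CC ν) := by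
  classical
  have s12 := tr_s12 hr hν hT
  have s23 := tr_s23 hr hν hT
  -- `s > 0`
  obtain ⟨W, s, hs, hW⟩ : ∃ (W : Cart X) (s : ℝ), 0 < s ∧ ∀ v, TR (cR ν F) D v = s * TR (cR ν F) (cR ν W) v := by
    obtain ⟨W, s, hW⟩ := hW
    rcases lt_trichotomy s 0 with h1 | h1 | h1
    · refine ⟨W⁻¹, -s, by linarith, fun v => ?_⟩
      rw [hW, cR_inv, map_neg, LinearMap.neg_apply]
      ring
    · rw [hW, h1, zero_mul] at hda
      exact absurd hda (lt_irrefl _)
    · exact ⟨W, s, h1, hW⟩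
  have hWA : 0 < TR (cR ν F) (cR ν W) (cR ν A) := by
    rw [hW] at hda
    exact pos_of_mul_pos_right hda hs.le
  have hWW : TR (cR ν F) (cR ν W) (cR ν W) = 0 := by
    have h1 : TR (cR ν F) D D = s * (s * TR (cR ν F) (cR ν W) (cR ν W)) := by
      rw [hW D, s23 (cR ν F) (cR ν W) D, hW]
    rw [hdd] at h1
    rcases mul_eq_zero.1 h1.symm with h2 | h2
    · exact absurd h2 hs.ne'
    · rcases mul_eq_zero.1 h2 with h3 | h3
      · exact absurd h3 hs.ne'
      · exact h3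
  -- the kernel
  obtain ⟨z, hz⟩ : ∃ z, z = D - s • cR ν W := ⟨_, rfl⟩
  have hzF : ∀ v, TR z (cR ν F) v = 0 := fun v => by
    rw [s12, hz, map_sub, map_smul, LinearMap.sub_apply, LinearMap.smul_apply, smul_eq_mul, hW, sub_self]
  obtain ⟨c', d, hd, hzc⟩ := vp_sum z (self_vp z)
  choose Z hZ using fun i : Fin r => ci_surj hν (d i)
  have hZc : ∀ i, cR ν (Z i) = rv (d i) := fun i => by
    change rv (ci ν (Z i)) = _
    rw [hZ]
  have hZF : ∀ i (V : Cart X), T F (Z i) V = 0 := fun i V => by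
    rw [← hT, s12, hZc]
    exact vp_tri hr hν hT ⟨A, hA⟩ (hzF _) (hd i)
  -- signs
  obtain ⟨Y, hY⟩ : ∃ Y : Fin r → Cart X, ∀ i, c' i • rv (d i) = |c' i| • cR ν (Y i) ∧ ∀ V, T F (Y i) V = 0 := by
    refine ⟨fun i => if 0 ≤ c' i then Z i else (Z i)⁻¹, fun i => ?_⟩
    by_cases h1 : 0 ≤ c' i
    · simp only [if_pos h1]
      exact ⟨by rw [abs_of_nonneg h1, hZc], hZF i⟩
    · simp only [if_neg h1]
      refine ⟨?_, fun V => ?_⟩
      · rw [abs_of_neg (not_le.1 h1), cR_inv, hZc, smul_neg, neg_smul, neg_neg]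
      · rw [← hT, cR_inv, map_neg, LinearMap.neg_apply, hT, hZF, neg_zero]
  have hzY : z = ∑ i, |c' i| • cR ν (Y i) := by
    rw [hzc]
    exact Finset.sum_congr rfl fun i _ => (hY i).1
  obtain ⟨σ, hσ⟩ : ∃ σ : ℝ, σ = ∑ i, |c' i| := ⟨_, rfl⟩
  have hσ0 : 0 ≤ σ := by rw [hσ]; exact Finset.sum_nonneg fun i _ => abs_nonneg _
  obtain ⟨N, hN⟩ := exists_nat_gt (σ / s + 1)
  have hN1 : (1 : ℝ) < N := by
    have : 0 ≤ σ / s := by positivity
    linarith
  have hNp : (0 : ℝ) < N := by linarith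
  have hNs : σ / N < s := by
    have h1 : σ / s < N := by linarith
    rw [div_lt_iff₀ hs] at h1
    rw [div_lt_iff₀ hNp]
    linarith
  have hTW : ∀ i V, T F (Y i ^ N * W) V = T F W V := fun i V => by
    rw [hr.tri.add2, hr.tri.pow2, (hY i).2]
    ring
  have hFWW : T F W W = 0 := by rw [← hT]; exact hWW
  have hFWA : 0 < T F W A := by rw [← hT]; exact hWA
  refine n2_core h hr hν hT hA hF hsq hpos hl hMI hD (ι := Option (Fin r))
    (W := fun o => o.elim W fun i => Y i ^ N * W) (b := fun o => o.elim (s - σ / N) fun i => |c' i| / N) ?_ ?_ ?_ ?_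
  · rintro (_ | i)
    · exact (sub_pos.2 hNs).le
    · exact div_nonneg (abs_nonneg _) hNp.le
  · rintro (_ | i)
    · exact hFWA
    · change 0 < T F (Y i ^ N * W) A
      rw [hTW]
      exact hFWA
  · rintro (_ | i)
    · exact hFWW.ge
    · change 0 ≤ T F (Y i ^ N * W) (Y i ^ N * W)
      rw [hTW, hr.tri.s23, hr.tri.s12]
      have h1 : T (Y i ^ N * W) F W = T F (Y i ^ N * W) W := hr.tri.s12 _ _ _
      rw [h1, hTW]
      exact hFWW.ge
  · rw [Fintype.sum_option]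
    change D = (s - σ / N) • cR ν W + ∑ i, (|c' i| / N) • cR ν (Y i ^ N * W)
    have h1 : ∀ i, (|c' i| / N) • cR ν (Y i ^ N * W) = |c' i| • cR ν (Y i) + (|c' i| / N) • cR ν W := fun i => by
      rw [cR_mul, cR_pow, smul_add, smul_smul, div_mul_cancel₀ _ hNp.ne']
    simp only [h1]
    rw [Finset.sum_add_distrib, ← hzY, ← Finset.sum_smul, ← Finset.sum_div, ← hσ, hz, sub_smul]
    abel

end Pool.Agent.H32.KN
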