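import Pool.Agent.H24.KN.Rkc
import Pool.Agent.H24.KN.Hor
import Pool.Agent.H32.KF.Lbp
import Pool.Agent.H32.KF.Star

/-!
# [H32 KN N4] K3 fibrations (MP_e49dc9_ag, think 1285 (3')): the tangent cone of `F` and the kernel of `T(F,.,.)`

`n4`: `F` integral and nef, `F . F = 0`, the class of a pencil, `l(F) > 0`, (MI), `D` in the tangent cone of `F`, `T(F,D,.) = 0`: then `D = a F`.

PROOF.  Suppose not.  `T(D,D,A) = - τ < 0` (index theorem, `neg_sq`).  `U` an integral class at distance `≤ 1` from `x D + R A` (`R` fixed and large), `t` the least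
integer such that `P = U + t F` is nef.
* `real_core`: `T(P,P,A) ≥ 0`: `t ≥ c x ^ 2`.  If `T(D,D,D) ≤ 0` then `T(P,P,P) ≥ 0` gives `t R T(F,A,A) ≥ (9/10) τ x ^ 2 - O(x)`; if `T(D,D,D) > 0` then
  `T(P,P,P) T(P,A,A) ≤ T(P,P,A) ^ 2` gives `t ≥ c x ^ 3`.  So `T(P,P,A)` is `≥ 3 m T(P,A,A) + C₁`, and `lbp` is available: `h⁰(P) ≥ t l(F) - O(x)`.
* `rkn`: `T(F,U,.)` is bounded, so `h⁰(U + t F) ≤ n B` if `U + (t - n) F` has no section; by (MI) a fixed `n` will do.
-/

set_option autoImplicit false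

namespace Pool.Agent.H32.KN

open Pool.Agent.H54.RV Pool.Agent.H83.TU Pool.Agent.H83.TK Pool.Agent.H20.TD Pool.Agent.H20.TP Pool.Agent.H20.RT
open Pool.Agent.H24.VP (RR chS chi)
open Pool.Agent.H32.KF (Pcl l_zpow lbp T_zpow1)
open Pool.Agent.H24.KN (rkc ef_nn pcl_hor)
open Pool.Agent.H24.RC (eps_nn ball_bd cR_gen)
open Pool.Agent.H41.RA (cR_pow cR_inv)

/-- a quadratic polynomial is positive for large `x` -/
theorem qev {a : ℝ} (ha : 0 < a) (b c : ℝ) : ∃ x₀ : ℝ, ∀ x : ℝ, x₀ ≤ x → b * x + c < a * x ^ 2 := by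
  refine ⟨max 1 ((|b| + |c| + 1) / a), fun x hx => ?_⟩
  rw [max_le_iff] at hx
  have h1 : |b| + |c| + 1 ≤ x * a := (div_le_iff₀ ha).1 hx.2
  have h2 : x * (|b| + |c| + 1) ≤ x * (x * a) := mul_le_mul_of_nonneg_left h1 (by linarith)
  have h3 : b * x ≤ |b| * x := mul_le_mul_of_nonneg_right (le_abs_self b) (by linarith)
  have h4 : |c| ≤ x * |c| := by nlinarith [abs_nonneg c]
  have h5 := le_abs_self c
  nlinarith

/-- the inequalities between the real numbers -/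
theorem real_core {τ q m R C₁ C₂ K D3 : ℝ} (hτ : 0 < τ) (hq : 0 < q) (hm : 1 ≤ m) (hR : 30 * m ≤ R) (hK : 0 ≤ K) :
    ∃ x₀ c : ℝ, 1 ≤ x₀ ∧ 0 < c ∧ ∀ x : ℝ, x₀ ≤ x → ∀ t q1 q2 d y1 y2 y3 : ℝ, q * (19 / 20) ≤ q1 → q1 ≤ q * (21 / 20) →
      0 ≤ q2 → q2 ≤ q * (21 / 20) → d ≤ -(τ * (19 / 20)) → -K ≤ d → t * q - K * x ≤ y1 → y1 ≤ t * q + K * x →
      -(τ * x ^ 2) + 2 * (t * (R * q1)) - K * x ≤ y2 → y2 ≤ -(τ * x ^ 2) + 2 * (t * (R * q1)) + K * x →
      D3 * x ^ 3 + 3 * (x ^ 2 * (R * d)) + 3 * (t * (R ^ 2 * q2)) - K * x ≤ y3 →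
      y3 ≤ D3 * x ^ 3 + 3 * (x ^ 2 * (R * d)) + 3 * (t * (R ^ 2 * q2)) + K * x →
      0 ≤ y2 → 0 ≤ y3 → y1 * y3 ≤ y2 ^ 2 → c * x ^ 2 ≤ t ∧ 3 * m * y1 + C₁ ≤ y2 ∧ 0 < y2 ∧ C₂ < y1 := by
  have hR1 : 30 ≤ R := by linarith
  have hR0 : 0 < R := by linarith
  obtain ⟨x₁, hx₁⟩ := qev (show 0 < τ / (12 * R) by positivity) K 0
  obtain ⟨x₂, hx₂⟩ := qev (show 0 < τ * (62 / 100) by positivity) ((28 / 10 + 3 * m) * K) C₁
  obtain ⟨x₃, hx₃⟩ := qev (show 0 < τ / (6 * R) by positivity) K C₂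
  obtain ⟨x₄, hx₄⟩ := qev (show 0 < τ * (71 / 100) by positivity) (29 / 10 * K) 0
  obtain ⟨x₅, hx₅⟩ : ∃ x₅ : ℝ, 0 < D3 → ∀ x, x₅ ≤ x → 2 * (3 * R * K + K) ≤ D3 * x ∧ 36 * R * τ ≤ D3 * x := by
    by_cases hD : 0 < D3
    · refine ⟨max (2 * (3 * R * K + K) / D3) (36 * R * τ / D3), fun _ x hx => ?_⟩
      rw [max_le_iff, div_le_iff₀ hD, div_le_iff₀ hD] at hx
      constructor
      · linarith [hx.1]
      · linarith [hx.2]
    · exact ⟨0, fun h => absurd h hD⟩
  refine ⟨max 1 (max x₁ (max x₂ (max x₃ (max x₄ x₅)))), τ / (6 * (R * q)), le_max_left _ _, by positivity, ?_⟩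
  intro x hx t q1 q2 d y1 y2 y3 a1 a2 a3 a4 a5 a6 b1 b2 c1 c2 d1 d2 e1 e2 e3
  simp only [max_le_iff] at hx
  obtain ⟨hx0, hx1, hx2, hx3, hx4, hx5⟩ := hx
  replace hx1 := hx₁ x hx1
  replace hx2 := hx₂ x hx2
  replace hx3 := hx₃ x hx3
  replace hx4 := hx₄ x hx4
  rw [add_zero] at hx1 hx4
  have hxp : 0 < x := by linarith
  have hx2p : 0 < x ^ 2 := by positivity
  have hq1 : 0 < q1 := by linarith [mul_pos hq (show (0 : ℝ) < 19 / 20 by norm_num)]
  -- `K x` is small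
  have k1 : 12 * R * (K * x) ≤ τ * x ^ 2 := by
    have h1 := mul_le_mul_of_nonneg_left hx1.le (show 0 ≤ 12 * R by positivity)
    have h2 : 12 * R * (τ / (12 * R) * x ^ 2) = τ * x ^ 2 := by field_simp
    rwa [h2] at h1
  have hKx : 0 ≤ K * x := by positivity
  have k2 : 360 * (K * x) ≤ τ * x ^ 2 := by
    have h1 : 30 * (12 * (K * x)) ≤ R * (12 * (K * x)) := mul_le_mul_of_nonneg_right hR1 (by positivity)
    linarith
  -- `t > 0`
  have h1 : 0 < 2 * (t * (R * q1)) := by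
    have : 0 < τ * x ^ 2 := by positivity
    linarith
  have ht : 0 < t := by
    by_contra hcon
    push Not at hcon
    have := mul_nonneg (neg_nonneg.2 hcon) (mul_pos hR0 hq1).le
    linarith
  obtain ⟨s, hs⟩ : ∃ s, s = t * (R * q) := ⟨_, rfl⟩
  have hs1 : t * (R * q1) ≤ s * (21 / 20) := by
    rw [hs]
    have := mul_le_mul_of_nonneg_left (mul_le_mul_of_nonneg_left a2 hR0.le) ht.le
    linarith
  have hs2 : s * (19 / 20) ≤ t * (R * q1) := by
    rw [hs]
    have := mul_le_mul_of_nonneg_left (mul_le_mul_of_nonneg_left a1 hR0.le) ht.le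
    linarith
  have hs3 : τ * x ^ 2 / 6 ≤ s := by linarith
  have hs0 : 0 < s := by
    have : 0 < τ * x ^ 2 := by positivity
    linarith
  have htq : R * (t * q) = s := by rw [hs]; ring
  have htq' : 30 * m * (t * q) ≤ s := by
    rw [← htq]
    exact mul_le_mul_of_nonneg_right hR (by positivity)
  have hcx : τ / (6 * (R * q)) * x ^ 2 ≤ t := by
    rw [div_mul_eq_mul_div, div_le_iff₀ (by positivity)]
    linarith
  -- the main inequality
  have main : τ * x ^ 2 * (9 / 10) - K * x ≤ s := by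
    rcases le_or_gt D3 0 with hD | hD
    · have g1 : D3 * x ^ 3 ≤ 0 := mul_nonpos_of_nonpos_of_nonneg hD (by positivity)
      have g2 : x ^ 2 * (R * d) ≤ -(R * (τ * x ^ 2 * (19 / 20))) := by
        have := mul_le_mul_of_nonneg_left a5 (show 0 ≤ x ^ 2 * R by positivity)
        linarith
      have g3 : t * (R ^ 2 * q2) ≤ R * (s * (21 / 20)) := by
        have := mul_le_mul_of_nonneg_left a4 (show 0 ≤ t * R ^ 2 by positivity)
        rw [hs]
        linarith
      have g4 : K * x ≤ R * (K * x) := by nlinarith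
      have g5 : R * (τ * x ^ 2 * (57 / 20) - K * x) ≤ R * (s * (63 / 20)) := by linarith
      have g6 := le_of_mul_le_mul_left g5 hR0
      linarith
    · obtain ⟨g1, g2⟩ := hx₅ hD x hx5
      have g3 : D3 * x ^ 3 / 2 ≤ y3 := by
        have i1 : -(R * K * x ^ 2) ≤ x ^ 2 * (R * d) := by
          have := mul_le_mul_of_nonneg_left a6 (show 0 ≤ x ^ 2 * R by positivity)
          linarith
        have i2 : 0 ≤ t * (R ^ 2 * q2) := by positivity
        have i3 : K * x ≤ K * x ^ 2 := by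
          have : x ≤ x ^ 2 := by nlinarith
          exact mul_le_mul_of_nonneg_left this hK
        have i4 := mul_le_mul_of_nonneg_right g1 hx2p.le
        have i5 : D3 * x * x ^ 2 = D3 * x ^ 3 := by ring
        rw [i5] at i4
        linarith
      have g4 : s / (2 * R) ≤ y1 := by
        rw [div_le_iff₀ (by positivity)]
        have i1 : 2 * R * (t * q - K * x) ≤ y1 * (2 * R) := by
          rw [mul_comm y1]
          exact mul_le_mul_of_nonneg_left b1 (by positivity)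
        linarith
      have g5 : y2 ≤ 3 * s := by linarith
      have g6 : y2 ^ 2 ≤ (3 * s) ^ 2 := pow_le_pow_left₀ e1 g5 2
      have g7 : s / (2 * R) * (D3 * x ^ 3 / 2) ≤ y1 * y3 :=
        mul_le_mul g4 g3 (by positivity) (le_trans (by positivity) g4)
      have g8 : s * (D3 * x ^ 3) ≤ s * (36 * R * s) := by
        have i1 : s / (2 * R) * (D3 * x ^ 3 / 2) ≤ (3 * s) ^ 2 := g7.trans (e3.trans g6)
        have i2 : s / (2 * R) * (D3 * x ^ 3 / 2) = s * (D3 * x ^ 3) / (4 * R) := by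
          field_simp
          ring
        rw [i2, div_le_iff₀ (by positivity)] at i1
        linarith
      have g9 := le_of_mul_le_mul_left g8 hs0
      have g10 := mul_le_mul_of_nonneg_right g2 hx2p.le
      have i5 : D3 * x * x ^ 2 = D3 * x ^ 3 := by ring
      rw [i5] at g10
      have g11 : 36 * R * (τ * x ^ 2) ≤ 36 * R * s := by linarith
      have g12 := le_of_mul_le_mul_left g11 (by positivity)
      have : 0 < τ * x ^ 2 := by positivity
      linarith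
  have hmy : 3 * m * y1 ≤ s / 10 + 3 * m * (K * x) := by
    have := mul_le_mul_of_nonneg_left b2 (show 0 ≤ 3 * m by linarith)
    linarith
  refine ⟨hcx, ?_, ?_, ?_⟩
  · linarith
  · linarith
  · have i1 : τ / (6 * R) * x ^ 2 ≤ t * q := by
      rw [div_mul_eq_mul_div, div_le_iff₀ (by positivity)]
      linarith
    linarith

variable {k K : Type} [Field k] [Field K] [Algebra k K] {X : Mod k K} {r : ℕ}
  {ν : Cart X →* Multiplicative (Fin r → ℤ)} {T : Cart X → Cart X → Cart X → ℝ} {l : Cart X → ℝ} {c : ℝ} {TR : Tri3 r}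
  {A F : Cart X} {s₀ s₁ : K}

theorem cR_zp (U : Cart X) (i : ℤ) : cR ν (U ^ i) = (i : ℝ) • cR ν U := by
  change rv (ci ν (U ^ i)) = _
  rw [ci_zpow, rv_smul]

/-- **the index theorem**: `T(D,D,A) < 0` if `T(F,D,A) = 0` and `D` is not a multiple of `F` -/
theorem neg_sq [CharZero k] [IsAlgClosed k] [T0Space X.P] (h : Hyp X) (hr : RR T l c) (hν : NumR ν)
    (hT : ∀ U V W, TR (cR ν U) (cR ν V) (cR ν W) = T U V W) (hA : Ample A)
    (hsq : TR (cR ν F) (cR ν F) = 0) (hpos : 0 < TR (cR ν F) (cR ν A) (cR ν A)) {D : Fin r → ℝ}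
    (hQ : TR (cR ν F) D (cR ν A) = 0) (hne : ∀ a : ℝ, D ≠ a • cR ν F) : TR D D (cR ν A) < 0 := by
  have s12 := tr_s12 hr hν hT
  have s23 := tr_s23 hr hν hT
  have hAC : cR ν A ∈ CC ν := cc_amp h.var hν hA
  have hAc := subset_closure hAC
  obtain ⟨f, hf⟩ : ∃ f, f = cR ν F := ⟨_, rfl⟩
  obtain ⟨a, ha⟩ : ∃ a, a = cR ν A := ⟨_, rfl⟩
  rw [← hf] at hsq hpos hQ
  simp only [← hf] at hne
  rw [← ha] at hpos hQ hAC hAc ⊢
  have e3 : 0 < TR a a a := by
    obtain ⟨ε, hε, h4⟩ := (oc_cc h.var hν).sub_small hAC (-f)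
    have h5 := tr_nn h hr hν hT hAc hAc (subset_closure (h4 ε (by rw [abs_of_pos hε])))
    rw [map_add, map_smul, map_neg, smul_neg, smul_eq_mul, s23 a a f, s12 a f a] at h5
    have h6 := mul_pos hε hpos
    linarith
  obtain ⟨q, hq⟩ : ∃ q : ℝ, q = TR a a D / TR f a a := ⟨_, rfl⟩
  have hqq : q * TR f a a = TR a a D := by rw [hq, div_mul_cancel₀ _ hpos.ne']
  obtain ⟨v, hv⟩ : ∃ v, v = D - q • f := ⟨_, rfl⟩
  have f1 : TR f a D = 0 := by rw [s23]; exact hQ
  have f2 : ∀ u, TR f f u = 0 := fun u => by rw [hsq, LinearMap.zero_apply]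
  have e1 : TR a a v = 0 := by
    rw [hv, map_sub, map_smul, smul_eq_mul, s23 a a f, s12 a f a, hqq, sub_self]
  have e2 : TR a v v = TR D D a := by
    rw [s12, s23, hv]
    simp only [map_sub, map_smul, LinearMap.sub_apply, LinearMap.smul_apply, smul_eq_mul]
    rw [s12 D f a, hQ, f2]
    ring
  have e4 := hi_real h hr hν hT (p := a) (L := a) (v := v) hAc e3
  rw [e1, e2] at e4
  have e5 : TR D D a ≤ 0 := by
    by_contra hcon
    push Not at hcon
    have := mul_pos e3 hcon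
    linarith
  refine lt_of_le_of_ne e5 fun e6 => ?_
  have e7 : ∀ u, TR a v u = 0 := fun u =>
    hd_eq h hr hν hT (p := a) (L := a) hAc e3 (by rw [s23]; exact e1) (by rw [e2]; exact e6) u
  have e8 : v = 0 := Pool.Agent.H83.RT.num_zero h hr hν hT fun x hx => curves_zero h hr hν hT hA
    (fun u => by rw [← ha, s12]; exact e7 u) (by rw [← ha, s23, s12]; exact e7 v) hx
  refine hne q ?_
  rw [hv] at e8
  exact sub_eq_zero.1 e8

/-- the nearest integral class -/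
theorem near_int (v : Fin r → ℝ) : ∃ d : Fin r → ℤ, ‖rv d - v‖ ≤ 1 := by
  refine ⟨fun i => ⌊v i⌋, (pi_norm_le_iff_of_nonneg one_pos.le).2 fun i => ?_⟩
  have h1 := Int.floor_le (v i)
  have h2 := Int.lt_floor_add_one (v i)
  have e : (rv (fun i => ⌊v i⌋) - v) i = (⌊v i⌋ : ℝ) - v i := rfl
  rw [e, Real.norm_eq_abs, abs_le]
  constructor
  · linarith
  · linarith

/-- lifting integral classes, with a bound for `l` -/
theorem lift_l (hr : RR T l c) (hν : NumR ν) : ∃ B : ℝ, 0 ≤ B ∧ ∀ d : Fin r → ℤ, ∃ U : Cart X, cR ν U = rv d ∧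
    |l U| ≤ B * ‖rv d‖ := by
  classical
  choose G hG using fun i : Fin r => ci_surj hν (Pi.single i 1)
  have hl1 : l (1 : Cart X) = 0 := by
    have := hr.ladd 1 1
    rw [mul_one] at this
    linarith
  refine ⟨∑ i, |l (G i)|, Finset.sum_nonneg fun i _ => abs_nonneg _, fun d => ⟨∏ i, G i ^ d i, ?_, ?_⟩⟩
  · change rv (ci ν _) = _
    rw [cR_gen hG]
  · have h1 : l (∏ i, G i ^ d i) = ∑ i, (d i : ℝ) * l (G i) := by
      have h2 : ∀ s : Finset (Fin r), l (∏ i ∈ s, G i ^ d i) = ∑ i ∈ s, (d i : ℝ) * l (G i) := by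
        intro s
        induction s using Finset.induction_on with
        | empty => rw [Finset.prod_empty, Finset.sum_empty, hl1]
        | insert a s ha ih => rw [Finset.prod_insert ha, Finset.sum_insert ha, hr.ladd, ih, l_zpow hr]
      exact h2 _
    rw [h1, Finset.sum_mul]
    refine (Finset.abs_sum_le_sum_abs _ _).trans (Finset.sum_le_sum fun i _ => ?_)
    rw [abs_mul, mul_comm]
    refine mul_le_mul_of_nonneg_left ?_ (abs_nonneg _)
    exact norm_le_pi_norm (rv d) i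

/-- a horizontal prime divisor -/
theorem ex_S [CharZero k] [IsAlgClosed k] [T0Space X.P] (h : Hyp X) (hr : RR T l c) (hν : NumR ν)
    (hT : ∀ U V W, TR (cR ν U) (cR ν V) (cR ν W) = T U V W) (hA : Ample A)
    (hpos : 0 < TR (cR ν F) (cR ν A) (cR ν A)) :
    ∃ (P : PDiv X) (S : Cart X), SPr X P.η S ∧ 0 < TR (cR ν F) (cR ν A) (cR ν S) := by
  obtain ⟨m, hm, -, hb⟩ := exists_bpf h.var hA
  have hm0 : (0 : ℝ) < m := by exact_mod_cast hm
  have hpos' : 0 < h0 (A ^ m) 1 := Pool.Agent.H20.TQ.bpf_pos h hb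
  obtain ⟨Ls, h1, h2, -⟩ := Pool.Agent.H41.RA.srf_fac h hr hν hT hpos'
  have h3 : 0 < TR (cR ν F) (cR ν A) (cR ν (A ^ m)) := by
    rw [cR_pow, map_smul, smul_eq_mul]
    positivity
  rw [h2] at h3
  obtain ⟨y, hy, hy2⟩ : ∃ y ∈ Ls, 0 < TR (cR ν F) (cR ν A) (cR ν y.2) := by
    by_contra hcon
    push Not at hcon
    have h4 : (Ls.map fun y => TR (cR ν F) (cR ν A) (cR ν y.2)).sum ≤ 0 := Pool.Agent.H41.RA.sum_np hcon
    exact absurd h4 (not_le.2 h3)
  exact ⟨y.1, y.2, h1 y hy, hy2⟩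

/-- **the rank bound**: `T(F,U,.)` is bounded -/
theorem rkn [CharZero k] [IsAlgClosed k] [T0Space X.P] (h : Hyp X) (hr : RR T l c) (hν : NumR ν)
    (hT : ∀ U V W, TR (cR ν U) (cR ν V) (cR ν W) = T U V W) (hA : Ample A) (hP : Pcl F s₀ s₁)
    (hF : cR ν F ∈ closure (CC ν)) (hFam : ∀ B : Cart X, Ample B → Ample (B * F))
    (hsq : TR (cR ν F) (cR ν F) = 0) (hpos : 0 < TR (cR ν F) (cR ν A) (cR ν A)) {D : Fin r → ℝ}
    (hD : ∀ e : ℝ, 0 < e → ∃ t : ℝ, D + e • cR ν A + t • cR ν F ∈ closure (CC ν)) (hQ : TR (cR ν F) D = 0) (R₁ : ℝ) :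
    ∃ B : ℝ, 0 ≤ B ∧ ∀ (U : Cart X) (x : ℝ), 0 < x → ‖cR ν U - x • D‖ ≤ R₁ → ∀ (t : ℤ) (n : ℕ),
      h0 (U * F ^ (t - n)) 1 = 0 → (h0 (U * F ^ t) 1 : ℝ) ≤ n * B := by
  obtain ⟨P, S, hS, hS1⟩ := ex_S h hr hν hT hA hpos
  have htr := trdeg_pdiv h P
  have s12 := tr_s12 hr hν hT
  have s23 := tr_s23 hr hν hT
  have hoc := oc_cc (ν := ν) h.var hν
  have hFF : ∀ U, T F F U = 0 := fun U => by rw [← hT, hsq, LinearMap.zero_apply]
  have hAC : cR ν A ∈ CC ν := cc_amp h.var hν hA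
  obtain ⟨hu, ht⟩ := pcl_hor h hr hν hT hA hF (by rw [hsq, LinearMap.zero_apply]) hS hP hS1
  obtain ⟨B₁, hB₁, b1⟩ := ball_bd (f := fun u => TR (cR ν F) (cR ν A) u)
    (cont3' TR continuous_const continuous_const continuous_id) R₁
  obtain ⟨B₂, hB₂, b2⟩ := ball_bd (f := fun u => TR (cR ν F) (cR ν S) u)
    (cont3' TR continuous_const continuous_const continuous_id) R₁
  -- `j`
  obtain ⟨j, hj⟩ := exists_nat_gt (B₁ / TR (cR ν F) (cR ν A) (cR ν S))
  rw [div_lt_iff₀ hS1] at hj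
  -- `N`
  obtain ⟨δ, hδ, hball⟩ := Metric.isOpen_iff.1 (cc_open (ν := ν)) (cR ν A) hAC
  obtain ⟨N, hN⟩ := exists_nat_gt ((R₁ + j * ‖cR ν S‖) / δ)
  rw [div_lt_iff₀ hδ] at hN
  have hamp : ∀ (a : Fin r → ℝ) (i : ℕ), ‖a‖ ≤ R₁ → i ≤ j → a - (i : ℝ) • cR ν S + ((N : ℝ) + 1) • cR ν A ∈ CC ν := by
    intro a i ha hi
    have hN1 : (0 : ℝ) < (N : ℝ) + 1 := by positivity
    have h1 : ((N : ℝ) + 1)⁻¹ • (a - (i : ℝ) • cR ν S) + cR ν A ∈ CC ν := by
      apply hball
      rw [Metric.mem_ball, dist_eq_norm, add_sub_cancel_right, norm_smul, Real.norm_eq_abs,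
        abs_of_pos (inv_pos.2 hN1), inv_mul_lt_iff₀ hN1]
      have h2 : ‖a - (i : ℝ) • cR ν S‖ ≤ R₁ + j * ‖cR ν S‖ := by
        refine (norm_sub_le _ _).trans (add_le_add ha ?_)
        rw [norm_smul, Real.norm_eq_abs, abs_of_nonneg (Nat.cast_nonneg i)]
        exact mul_le_mul_of_nonneg_right (by exact_mod_cast hi) (norm_nonneg _)
      nlinarith
    have h2 := hoc.smul _ hN1 _ h1
    rwa [smul_add, smul_smul, mul_inv_cancel₀ hN1.ne', one_smul] at h2
  have hA' : Ample (A ^ (N + 2)) := Pool.Agent.H83.TU.ample_pow A (N + 2) (by omega) hA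
  obtain ⟨d, C, hC0, hC⟩ := rkc h hr hA' hFam hS htr hP (hFF S) hu ht
  obtain ⟨B, hB⟩ : ∃ B : ℝ, B = j * (d * (B₂ + j * |T S F S| + C)) := ⟨_, rfl⟩
  refine ⟨B, by rw [hB]; positivity, fun U x hx hU t n hz => ?_⟩
  obtain ⟨a, ha⟩ : ∃ a, a = cR ν U - x • D := ⟨_, rfl⟩
  have hUa : cR ν U = x • D + a := by rw [ha]; abel
  rw [← ha] at hU
  have hfu : ∀ u, TR (cR ν F) (cR ν U) u = TR (cR ν F) a u := fun u => by
    rw [hUa, map_add, map_smul, hQ, smul_zero, zero_add]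
  obtain ⟨V, hV⟩ : ∃ V, V = U * F ^ (t - n) := ⟨_, rfl⟩
  have hVc : cR ν V = x • D + a + ((t - n : ℤ) : ℝ) • cR ν F := by rw [hV, cR_mul, cR_zp, hUa]
  have h1 := hC V j (fun i hi => by
    obtain ⟨t', ht'⟩ := hD (1 / x) (by positivity)
    obtain ⟨n', hn'⟩ := exists_nat_gt (x * t' - ((t - n : ℤ) : ℝ))
    refine ⟨n', cc_ample (ν := ν) ?_⟩
    change cR ν (V * (S ^ i)⁻¹ * F ^ n' * A ^ (N + 2)) ∈ CC ν
    have h2 := hamp a i hU hi.le
    have h3 : x • (D + (1 / x) • cR ν A + t' • cR ν F) ∈ closure (CC ν) :=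
      map_mem_closure (continuous_const_smul x) ht' fun y hy => hoc.smul x hx y hy
    have h4 := hoc.add_cl h2 h3
    have h5 : (((t - n : ℤ) : ℝ) + n' - x * t') • cR ν F ∈ closure (CC ν) :=
      map_mem_closure (continuous_const_smul _) hF fun y hy => hoc.smul _ (by linarith) y hy
    have h6 := hoc.add_cl h4 h5
    convert h6 using 1
    rw [cR_mul, cR_mul, cR_mul, cR_inv, cR_pow, cR_pow, cR_pow, hVc]
    simp only [smul_add, smul_smul, add_smul, sub_smul, mul_one_div, div_self hx.ne', one_smul, Nat.cast_add,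
      Nat.cast_ofNat, two_smul]
    abel) (fun m => by
    by_contra hne
    have h2 := ef_nn h hr hν hT hF (subset_closure hAC) (Nat.pos_of_ne_zero hne)
    rw [cR_mul, cR_mul, cR_inv, cR_pow, cR_pow, hVc] at h2
    simp only [map_add, map_neg, map_smul, smul_eq_mul] at h2
    rw [s23 (cR ν F) (cR ν A) D, hQ, s23 (cR ν F) (cR ν A) (cR ν F), hsq] at h2
    simp only [LinearMap.zero_apply, mul_zero, add_zero, zero_add] at h2
    have h3 := (abs_le.1 (b1 a hU)).2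
    linarith) n
  have h2 : ∀ i ∈ Finset.range j, (d : ℝ) * (T (V * (S ^ i)⁻¹) F S + C) ≤ d * (B₂ + j * |T S F S| + C) := by
    intro i hi
    rw [Finset.mem_range] at hi
    refine mul_le_mul_of_nonneg_left ?_ (Nat.cast_nonneg d)
    have h3 : T (V * (S ^ i)⁻¹) F S = TR (cR ν F) (cR ν S) a - i * T S F S := by
      rw [hr.tri.add, hr.tri.inv, hr.tri.pow, hV, hr.tri.add, T_zpow1 hr, hFF, ← hT U F S, s12, hfu, s23]
      ring
    have h4 := (abs_le.1 (b2 a hU)).2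
    have h5 := neg_abs_le (T S F S)
    have h6 : (i : ℝ) ≤ j := by exact_mod_cast hi.le
    have h7 : -(i * T S F S) ≤ j * |T S F S| := by
      have h8 : -(i * T S F S) ≤ i * |T S F S| := by
        have := mul_le_mul_of_nonneg_left h5 (Nat.cast_nonneg (α := ℝ) i)
        linarith
      exact h8.trans (mul_le_mul_of_nonneg_right h6 (abs_nonneg _))
    rw [h3]
    linarith
  have h3 := Finset.sum_le_sum h2
  rw [Finset.sum_const, Finset.card_range, nsmul_eq_mul, ← hB] at h3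
  have h4 : V * F ^ n = U * F ^ t := by
    rw [hV, mul_assoc, ← zpow_natCast F n, ← zpow_add]
    congr 2
    ring
  rw [h4] at h1
  have h5 : h0 V 1 = 0 := by rw [hV]; exact hz
  rw [h5, Nat.cast_zero, zero_add] at h1
  exact h1.trans (mul_le_mul_of_nonneg_left h3 (Nat.cast_nonneg n))

/-- **(N4)** -/
theorem n4 [CharZero k] [IsAlgClosed k] [T0Space X.P] (h : Hyp X) (hr : RR T l c) (hν : NumR ν)
    (hT : ∀ U V W, TR (cR ν U) (cR ν V) (cR ν W) = T U V W) (hA : Ample A) (hP : Pcl F s₀ s₁)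
    (hF : cR ν F ∈ closure (CC ν)) (hsq : TR (cR ν F) (cR ν F) = 0) (hpos : 0 < TR (cR ν F) (cR ν A) (cR ν A))
    (hl : 0 < l F)
    (hMI : ∃ M : ℝ, 0 ≤ M ∧ ∀ U : Cart X, (∃ t0 : ℝ, cR ν U + t0 • cR ν F ∈ closure (CC ν)) → ∀ s : ℤ,
      0 < h0 (U * F ^ s) 1 → cR ν U + ((s : ℝ) + M * T A U F) • cR ν F ∈ closure (CC ν))
    {D : Fin r → ℝ} (hD : ∀ e : ℝ, 0 < e → ∃ t : ℝ, D + e • cR ν A + t • cR ν F ∈ closure (CC ν))
    (hQ : TR (cR ν F) D = 0) : ∃ a : ℝ, D = a • cR ν F := by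
  by_contra hne
  push Not at hne
  obtain ⟨M, hM, hMI⟩ := hMI
  have s12 := tr_s12 hr hν hT
  have s23 := tr_s23 hr hν hT
  have hoc := oc_cc (ν := ν) h.var hν
  have hAC : cR ν A ∈ CC ν := cc_amp h.var hν hA
  have hFam : ∀ B : Cart X, Ample B → Ample (B * F) := fun B hB => by
    apply cc_ample (ν := ν)
    change cR ν (B * F) ∈ CC ν
    rw [cR_mul]
    exact hoc.add_cl (cc_amp h.var hν hB) hF
  have hneg := neg_sq h hr hν hT hA hsq hpos (by rw [hQ, LinearMap.zero_apply]) hne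
  obtain ⟨m, C₀, C₁, hm, hL⟩ := lbp h hr hA
  have hm1 : (1 : ℝ) ≤ m := by exact_mod_cast hm
  obtain ⟨Bl, hBl, hlift⟩ := lift_l (l := l) hr hν
  obtain ⟨f, hf⟩ : ∃ f, f = cR ν F := ⟨_, rfl⟩
  obtain ⟨a, ha⟩ : ∃ a, a = cR ν A := ⟨_, rfl⟩
  have hsm : ∀ (b : ℝ) (v : Fin r → ℝ), 0 < b → v ∈ closure (CC ν) → b • v ∈ closure (CC ν) := fun b v hb hv =>
    map_mem_closure (continuous_const_smul b) hv fun y hy => hoc.smul b hb y hy
  have hTA : T A A A = TR a a a := by rw [ha, hT]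
  have hff : ∀ u, TR f f u = 0 := fun u => by rw [hf, hsq, LinearMap.zero_apply]
  have hfD : ∀ u, TR f D u = 0 := fun u => by rw [hf, hQ, LinearMap.zero_apply]
  have hMI' : ∀ (U : Cart X) (t : ℤ), cR ν U + (t : ℝ) • f ∈ closure (CC ν) → ∀ s : ℤ, 0 < h0 (U * F ^ s) 1 →
      cR ν U + ((s : ℝ) + M * TR a (cR ν U) f) • f ∈ closure (CC ν) := fun U t ht s hs => by
    have := hMI U ⟨t, by rw [← hf]; exact ht⟩ s hs
    rwa [← hT, ← ha, ← hf] at this
  rw [← hf] at hF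
  rw [← hf, ← ha] at hpos
  rw [← ha] at hAC hneg
  obtain ⟨q, hq⟩ : ∃ q, q = TR f a a := ⟨_, rfl⟩
  obtain ⟨τ, hτ⟩ : ∃ τ, τ = -TR D D a := ⟨_, rfl⟩
  have hq0 : 0 < q := by rw [hq]; exact hpos
  have hτ0 : 0 < τ := by rw [hτ]; linarith
  -- the neighbourhood
  obtain ⟨δ, hδ, hnb⟩ : ∃ δ : ℝ, 0 < δ ∧ ∀ u, ‖u - a‖ < δ → q * (19 / 20) < TR f u a ∧ TR f u a < q * (21 / 20) ∧
      TR f u u < q * (21 / 20) ∧ TR D D u < -(τ * (19 / 20)) ∧ u ∈ CC ν := by
    obtain ⟨O, hO⟩ : ∃ O : Set (Fin r → ℝ), O = {u | q * (19 / 20) < TR f u a ∧ TR f u a < q * (21 / 20) ∧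
      TR f u u < q * (21 / 20) ∧ TR D D u < -(τ * (19 / 20)) ∧ u ∈ CC ν} := ⟨_, rfl⟩
    have hOo : IsOpen O := by
      rw [hO]
      exact (isOpen_lt continuous_const (cont3' TR continuous_const continuous_id continuous_const)).inter
        ((isOpen_lt (cont3' TR continuous_const continuous_id continuous_const) continuous_const).inter
        ((isOpen_lt (cont3' TR continuous_const continuous_id continuous_id) continuous_const).inter
        ((isOpen_lt (cont3' TR continuous_const continuous_const continuous_id) continuous_const).inter cc_open)))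
    have haO : a ∈ O := by
      rw [hO]
      refine ⟨?_, ?_, ?_, ?_, hAC⟩
      · rw [← hq]; linarith
      · rw [← hq]; linarith
      · rw [← hq]; linarith
      · have : TR D D a = -τ := by rw [hτ]; ring
        rw [this]; linarith
    obtain ⟨δ, hδ, h1⟩ := Metric.isOpen_iff.1 hOo a haO
    refine ⟨δ, hδ, fun u hu => ?_⟩
    have h2 := h1 (by rwa [Metric.mem_ball, dist_eq_norm] : u ∈ Metric.ball a δ)
    rw [hO] at h2
    exact h2
  obtain ⟨R, hRd⟩ : ∃ R : ℝ, R = max (30 * (m : ℝ)) (2 / δ) := ⟨_, rfl⟩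
  have hR1 : 30 * (m : ℝ) ≤ R := by rw [hRd]; exact le_max_left _ _
  have hR2 : 2 / δ ≤ R := by rw [hRd]; exact le_max_right _ _
  have hR0 : 0 < R := by linarith
  have hRδ : R⁻¹ < δ := by
    rw [inv_lt_iff_one_lt_mul₀ hR0]
    rw [div_le_iff₀ hδ] at hR2
    linarith
  obtain ⟨R₁, hR₁⟩ : ∃ R₁ : ℝ, R₁ = R * ‖a‖ + 1 := ⟨_, rfl⟩
  have hR₁0 : 0 ≤ R₁ := by rw [hR₁]; positivity
  obtain ⟨B₁, hB₁, b1⟩ := ball_bd (f := fun u => TR u a a) (cont3' TR continuous_id continuous_const continuous_const) R₁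
  obtain ⟨B₂, hB₂, b2⟩ := ball_bd (f := fun u => TR D u a) (cont3' TR continuous_const continuous_id continuous_const) R₁
  obtain ⟨B₃, hB₃, b3⟩ := ball_bd (f := fun u => TR u u a) (cont3' TR continuous_id continuous_id continuous_const) R₁
  obtain ⟨B₄, hB₄, b4⟩ := ball_bd (f := fun u => TR D u u) (cont3' TR continuous_const continuous_id continuous_id) R₁
  obtain ⟨B₅, hB₅, b5⟩ := ball_bd (f := fun u => TR u u u) (cont3' TR continuous_id continuous_id continuous_id) R₁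
  obtain ⟨B₆, hB₆, b6⟩ := ball_bd (f := fun u => TR D D u) (cont3' TR continuous_const continuous_const continuous_id) R₁
  obtain ⟨B₇, hB₇, b7⟩ := ball_bd (f := fun u => TR a u f) (cont3' TR continuous_const continuous_id continuous_const) R₁
  obtain ⟨K', hK⟩ : ∃ K' : ℝ, K' = |TR D a a| + B₁ + (2 * B₂ + B₃) + (3 * B₄ + B₅) + B₆ := ⟨_, rfl⟩
  have hK0 : 0 ≤ K' := by rw [hK]; positivity
  obtain ⟨n, hn⟩ := exists_nat_gt (M * B₇ + 1)
  obtain ⟨B, hB, hrk⟩ := rkn h hr hν hT hA hP (by rw [← hf]; exact hF) hFam hsq (by rw [← hf, ← ha]; exact hpos) hD hQ R₁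
  obtain ⟨x₀, c₀, hx₀, hc₀, hcore⟩ := real_core (C₁ := C₁) (C₂ := 2 * m * T A A A) (D3 := TR D D D) hτ0 hq0 hm1 hR1 hK0
  obtain ⟨x₆, hx₆⟩ := qev (show 0 < c₀ * l F by positivity) (Bl * ‖D‖) (n * B + C₀ - c + Bl * R₁)
  obtain ⟨x, hx⟩ : ∃ x, x = max x₀ x₆ := ⟨_, rfl⟩
  have hxx0 : x₀ ≤ x := by rw [hx]; exact le_max_left _ _
  have hxx6 : x₆ ≤ x := by rw [hx]; exact le_max_right _ _
  have hx1 : 1 ≤ x := hx₀.trans hxx0
  have hxp : 0 < x := by linarith
  replace hx₆ := hx₆ x hxx6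
  -- the class `U`
  obtain ⟨d, hd⟩ := near_int (x • D + R • a)
  obtain ⟨U, hU, hlU⟩ := hlift d
  obtain ⟨u, hu⟩ : ∃ u, u = cR ν U - x • D := ⟨_, rfl⟩
  have hUu : cR ν U = x • D + u := by rw [hu]; abel
  have huR : ‖u - R • a‖ ≤ 1 := by
    have e : u - R • a = rv d - (x • D + R • a) := by rw [hu, hU]; abel
    rw [e]
    exact hd
  have hun : ‖u‖ ≤ R₁ := by
    have e : u = R • a + (u - R • a) := by abel
    rw [e, hR₁]
    refine (norm_add_le _ _).trans (add_le_add ?_ huR)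
    rw [norm_smul, Real.norm_eq_abs, abs_of_pos hR0]
  obtain ⟨v, hv⟩ : ∃ v, v = R⁻¹ • u := ⟨_, rfl⟩
  have huv : u = R • v := by rw [hv, smul_smul, mul_inv_cancel₀ hR0.ne', one_smul]
  have hva : ‖v - a‖ < δ := by
    have e : v - a = R⁻¹ • (u - R • a) := by
      rw [hv, smul_sub, smul_smul, inv_mul_cancel₀ hR0.ne', one_smul]
    rw [e, norm_smul, Real.norm_eq_abs, abs_of_pos (inv_pos.2 hR0)]
    have : R⁻¹ * ‖u - R • a‖ ≤ R⁻¹ * 1 := mul_le_mul_of_nonneg_left huR (inv_pos.2 hR0).le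
    linarith
  obtain ⟨v1, v2, v3, v4, v5⟩ := hnb v hva
  have hlU' : |l U| ≤ Bl * (x * ‖D‖ + R₁) := by
    refine hlU.trans (mul_le_mul_of_nonneg_left ?_ hBl)
    rw [← hU, hUu]
    refine (norm_add_le _ _).trans (add_le_add ?_ hun)
    rw [norm_smul, Real.norm_eq_abs, abs_of_pos hxp]
  -- the least integer `t`
  obtain ⟨t, htm, htmin⟩ := Int.exists_least_of_bdd (P := fun t : ℤ => cR ν U + (t : ℝ) • f ∈ closure (CC ν))
    ⟨⌊-(TR (cR ν U) a a) / q⌋, fun t ht => by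
      have h1 := tr_nn h hr hν hT ht (subset_closure hAC) (subset_closure hAC)
      rw [map_add, map_smul, LinearMap.add_apply, LinearMap.smul_apply, LinearMap.add_apply, LinearMap.smul_apply,
        smul_eq_mul, ← hq] at h1
      have h2 : -(TR (cR ν U) a a) / q ≤ t := by
        rw [div_le_iff₀ hq0]
        linarith
      exact_mod_cast (Int.floor_le (-(TR (cR ν U) a a) / q)).trans h2⟩ (by
      have hu5 : u ∈ CC ν := by rw [huv]; exact hoc.smul R hR0 _ v5
      obtain ⟨e, he, h1⟩ := hoc.sub_small hu5 a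
      have h2 := h1 (-e) (by rw [abs_neg, abs_of_pos he])
      obtain ⟨t', ht'⟩ := hD (e / x) (by positivity)
      rw [← ha, ← hf] at ht'
      have h3 := hoc.add_cl h2 (hsm x _ hxp ht')
      obtain ⟨t, ht⟩ := exists_int_gt (x * t')
      refine ⟨t, ?_⟩
      have h4 := subset_closure (hoc.add_cl h3 (hsm ((t : ℝ) - x * t') _ (by linarith) hF))
      convert h4 using 1
      rw [hUu]
      simp only [smul_add, smul_smul, sub_smul, neg_smul, mul_div_cancel₀ _ hxp.ne']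
      abel)
  obtain ⟨V, hV⟩ : ∃ V, V = U * F ^ t := ⟨_, rfl⟩
  obtain ⟨P, hPd⟩ : ∃ P, P = x • D + u + (t : ℝ) • f := ⟨_, rfl⟩
  have hVP : cR ν V = P := by rw [hV, cR_mul, cR_zp, hUu, hPd, hf]
  have hPc : P ∈ closure (CC ν) := by
    rw [hPd, ← hUu]
    exact htm
  -- the intersection numbers
  have hDa : TR D a a = TR a a D := by rw [s12, s23]
  have y1e : TR P a a = t * q + (x * TR D a a + TR u a a) := by
    rw [hPd, hq]
    simp only [map_add, map_smul, LinearMap.add_apply, LinearMap.smul_apply, smul_eq_mul]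
    ring
  have g1 : TR D u a = TR u D a := s12 _ _ _
  have g2 : TR f u a = TR u f a := s12 _ _ _
  have g3 : TR D f a = 0 := by rw [s12, hfD]
  have y2e : TR P P a = -(τ * x ^ 2) + 2 * (t * (R * TR f v a)) + (2 * x * TR D u a + TR u u a) := by
    have e : R * TR f v a = TR f u a := by
      rw [huv, map_smul, LinearMap.smul_apply, smul_eq_mul]
    rw [e, hPd, hτ]
    simp only [map_add, map_smul, LinearMap.add_apply, LinearMap.smul_apply, smul_eq_mul, hfD, hff, g3, ← g1, ← g2]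
    ring
  have y3e : TR P P P = TR D D D * x ^ 3 + 3 * (x ^ 2 * (R * TR D D v)) + 3 * (t * (R ^ 2 * TR f v v)) +
      (3 * x * TR D u u + TR u u u) := by
    have e : R * TR D D v = TR D D u := by
      rw [huv, map_smul, smul_eq_mul]
    have e' : R ^ 2 * TR f v v = TR f u u := by
      rw [huv]
      simp only [map_smul, LinearMap.smul_apply, smul_eq_mul]
      ring
    have i1 : TR D u D = TR D D u := s23 _ _ _
    have i2 : TR u D D = TR D D u := by rw [s12, i1]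
    have i3 : TR u D u = TR D u u := s12 _ _ _
    have i4 : TR u u D = TR D u u := by rw [s23, i3]
    have i5 : ∀ w, TR D f w = 0 := fun w => by rw [s12, hfD]
    have i6 : ∀ w, TR D w f = 0 := fun w => by rw [s23, i5]
    have i7 : ∀ w, TR w D f = 0 := fun w => by rw [s12, i6]
    have i8 : ∀ w, TR w f f = 0 := fun w => by rw [s12, s23, hff]
    have i9 : ∀ w, TR f w f = 0 := fun w => by rw [s23, hff]
    have i10 : TR u f u = TR f u u := s12 _ _ _
    have i11 : TR u u f = TR f u u := by rw [s23, i10]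
    have i12 : ∀ w, TR w f D = 0 := fun w => by rw [s23, i7]
    have i13 : TR f u D = 0 := by rw [s23, hfD]
    rw [e, e', hPd]
    simp only [map_add, map_smul, LinearMap.add_apply, LinearMap.smul_apply, smul_eq_mul, hfD, hff, i1, i2, i3, i4, i5, i6,
      i7, i8, i9, i10, i11, i12, i13]
    ring
  -- the bounds
  have hc1 := b1 u hun
  have hc2 := b2 u hun
  have hc3 := b3 u hun
  have hc4 := b4 u hun
  have hc5 := b5 u hun
  have hc6 := b6 u hun
  have hc7 := b7 u hun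
  rw [abs_le] at hc1 hc2 hc3 hc4 hc5 hc6 hc7
  have hDaa := abs_le.1 (le_refl |TR D a a|)
  obtain ⟨hDa1, hDa2⟩ := hDaa
  have k1 : |TR D a a| * x + B₁ ≤ K' * x := by
    have : B₁ ≤ B₁ * x := by nlinarith
    have h2 : (|TR D a a| + B₁) * x ≤ K' * x := mul_le_mul_of_nonneg_right (by rw [hK]; linarith) hxp.le
    linarith
  have k2 : 2 * (B₂ * x) + B₃ ≤ K' * x := by
    have : B₃ ≤ B₃ * x := by nlinarith
    have h2 : (2 * B₂ + B₃) * x ≤ K' * x :=
      mul_le_mul_of_nonneg_right (by rw [hK]; linarith [abs_nonneg (TR D a a)]) hxp.le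
    linarith
  have k3 : 3 * (B₄ * x) + B₅ ≤ K' * x := by
    have : B₅ ≤ B₅ * x := by nlinarith
    have h2 : (3 * B₄ + B₅) * x ≤ K' * x :=
      mul_le_mul_of_nonneg_right (by rw [hK]; linarith [abs_nonneg (TR D a a)]) hxp.le
    linarith
  have j1 := mul_le_mul_of_nonneg_right hDa1 hxp.le
  have j2 := mul_le_mul_of_nonneg_right hDa2 hxp.le
  have j3 := mul_le_mul_of_nonneg_right hc2.1 hxp.le
  have j4 := mul_le_mul_of_nonneg_right hc2.2 hxp.le
  have j5 := mul_le_mul_of_nonneg_right hc4.1 hxp.le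
  have j6 := mul_le_mul_of_nonneg_right hc4.2 hxp.le
  have hdd : -K' ≤ TR D D v := by
    have e : TR D D v = R⁻¹ * TR D D u := by rw [hv, map_smul, smul_eq_mul]
    have h2 : R⁻¹ * (-B₆) ≤ R⁻¹ * TR D D u := mul_le_mul_of_nonneg_left hc6.1 (inv_pos.2 hR0).le
    have h3 : R⁻¹ * B₆ ≤ 1 * B₆ := mul_le_mul_of_nonneg_right (inv_le_one_of_one_le₀ (by linarith)) hB₆
    have h4 : B₆ ≤ K' := by
      rw [hK]
      have := abs_nonneg (TR D a a)
      linarith
    rw [e]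
    linarith
  have hvC := subset_closure v5
  have n1 := tr_nn h hr hν hT hF hvC hvC
  have n2 := tr_nn h hr hν hT hPc hPc (subset_closure hAC)
  have n3 := tr_nn h hr hν hT hPc hPc hPc
  have n4 := tr_nn h hr hν hT hPc (subset_closure hAC) (subset_closure hAC)
  have n5 : TR P a a * TR P P P ≤ TR P P a ^ 2 := by
    rcases n4.eq_or_lt with h1 | h1
    · rw [← h1, zero_mul]
      exact sq_nonneg _
    · have h2 := hi_real h hr hν hT (p := P) (L := a) (v := P) hPc h1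
      rwa [s23 P a P] at h2
  obtain ⟨r1, r2, r3, r4⟩ := hcore x hxx0 t (TR f v a) (TR f v v) (TR D D v) (TR P a a) (TR P P a) (TR P P P) v1.le v2.le n1
    v3.le v4.le hdd (by rw [y1e]; linarith) (by rw [y1e]; linarith) (by rw [y2e]; linarith) (by rw [y2e]; linarith)
    (by rw [y3e]; linarith) (by rw [y3e]; linarith) n2 n3 n5
  -- the lower bound
  have t1 : T V V A = TR P P a := by rw [← hT, hVP, ha]
  have t2 : T V A A = TR P a a := by rw [← hT, hVP, ha]
  have t3 : T V V V = TR P P P := by rw [← hT, hVP]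
  have hlow := hL V (fun B hB => by
    apply cc_ample (ν := ν)
    change cR ν (B * V) ∈ CC ν
    rw [cR_mul, hVP]
    exact hoc.add_cl (cc_amp h.var hν hB) hPc) (by rw [t1]; exact r3) (by rw [t2]; exact r4) (by rw [t1, t2]; exact r2)
  -- no section
  have hz : h0 (U * F ^ (t - n)) 1 = 0 := by
    by_contra hne
    have h1 := hMI' U t htm (t - n) (Nat.pos_of_ne_zero hne)
    have h2 : TR a (cR ν U) f ≤ B₇ := by
      rw [hUu]
      simp only [map_add, map_smul, LinearMap.add_apply, LinearMap.smul_apply, smul_eq_mul]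
      rw [s23 a D f, s12 a f D, s23 f a D, hfD]
      linarith [hc7.2]
    have h3 := mul_le_mul_of_nonneg_left h2 hM
    have h4 : (0 : ℝ) < n - 1 - M * TR a (cR ν U) f := by linarith
    have h6 : cR ν U + ((t - 1 : ℤ) : ℝ) • f ∈ closure (CC ν) := by
      have h7 := hsm _ _ h4 hF
      have h8 : _ ∈ closure (CC ν) := map_mem_closure₂ continuous_add h1 h7 fun y hy z hz => hoc.add y hy z hz
      convert h8 using 1
      rw [add_assoc, ← add_smul]
      congr 2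
      push_cast
      ring
    have h7 := htmin _ h6
    omega
  have hup := hrk U x hxp (by rw [← hu]; exact hun) t n hz
  rw [← hV] at hup
  have hchi : chi T l c V = TR P P P / 6 + (l U + t * l F) + c := by
    unfold chi
    rw [t3]
    congr 2
    rw [hV, hr.ladd, l_zpow hr]
  rw [hchi] at hlow
  have f1 := (abs_le.1 hlU').1
  have f2 : c₀ * x ^ 2 * l F ≤ t * l F := mul_le_mul_of_nonneg_right r1 hl.le
  linarith

end Pool.Agent.H32.KN
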